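import Pool.Agent.Helper9.MP.Lat

/-!
# MP_bde085_nt: module LATC

The cusp forms with integral real periods form a full lattice.
-/

set_option autoImplicit false

namespace Pool.Agent.Helper96.MP

open Complex MeasureTheory Filter Topology
open scoped MatrixGroups

/-! ### A separated subgroup with integral functionals is a lattice -/

theorem latc_finset {V : Type} [AddCommGroup V] [Module ℝ V] [FiniteDimensional ℝ V] {Γ : Type}
    (per : Γ → V →ₗ[ℝ] ℝ) (hsep : ∀ v, (∀ γ, per γ v = 0) → v = 0) :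
    ∃ F : Finset Γ, ∀ v, (∀ γ ∈ F, per γ v = 0) → v = 0 := by
  classical
  let K : Finset Γ → Submodule ℝ V := fun F => ⨅ γ ∈ F, LinearMap.ker (per γ)
  have hK : ∀ F v, v ∈ K F ↔ ∀ γ ∈ F, per γ v = 0 := by
    intro F v
    simp [K, Submodule.mem_iInf]
  obtain ⟨F, hF⟩ := exists_minimal_nat_finrank K
  refine ⟨F, ?_⟩
  intro v hv
  by_contra hne
  have h1 : ∃ γ, per γ v ≠ 0 := by
    by_contra hcon
    push Not at hcon
    exact hne (hsep v hcon)
  obtain ⟨γ, hγ⟩ := h1
  have h2 : K (insert γ F) < K F := by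
    apply lt_of_le_of_ne
    · intro u hu
      rw [hK] at hu ⊢
      intro δ hδ
      exact hu δ (Finset.mem_insert_of_mem hδ)
    · intro h
      have h3 : v ∈ K F := (hK F v).2 hv
      rw [← h, hK] at h3
      exact hγ (h3 γ (Finset.mem_insert_self _ _))
  have h3 := Submodule.finrank_lt_finrank_of_lt h2
  have h4 := hF (insert γ F)
  omega
where
  exists_minimal_nat_finrank {V : Type} [AddCommGroup V] [Module ℝ V] [FiniteDimensional ℝ V]
      {Γ : Type} (K : Finset Γ → Submodule ℝ V) :
      ∃ F, ∀ F', Module.finrank ℝ (K F) ≤ Module.finrank ℝ (K F') := by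
    have h : ∃ n, ∃ F, Module.finrank ℝ (K F) = n := ⟨_, ∅, rfl⟩
    classical
    obtain ⟨F, hF⟩ := Nat.find_spec h
    refine ⟨F, fun F' => ?_⟩
    rw [hF]
    exact Nat.find_min' h ⟨F', rfl⟩

theorem latc_lattice {V : Type} [AddCommGroup V] [Module ℝ V] [FiniteDimensional ℝ V]
    (L : AddSubgroup V) (hspan : Submodule.span ℝ (L : Set V) = ⊤) {Γ : Type}
    (per : Γ → V →ₗ[ℝ] ℝ) (hsep : ∀ v, (∀ γ, per γ v = 0) → v = 0)
    (hint : ∀ v ∈ L, ∀ γ, ∃ k : ℤ, per γ v = k) :
    ∃ (m : ℕ) (e : Fin m → V), ZB (L : Set V) ⊤ m e := by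
  classical
  obtain ⟨F, hF⟩ := latc_finset per hsep
  let φ : V ≃ₗ[ℝ] (Fin (Module.finrank ℝ V) → ℝ) := (Module.finBasis ℝ V).equivFun
  let L' : Submodule ℤ (Fin (Module.finrank ℝ V) → ℝ) :=
    AddSubgroup.toIntSubmodule (L.map (φ : V →ₗ[ℝ] (Fin (Module.finrank ℝ V) → ℝ)).toAddMonoidHom)
  have hL' : ∀ x, x ∈ L' ↔ φ.symm x ∈ L := by
    intro x
    constructor
    · rintro ⟨v, hv, hx⟩
      have : φ v = x := hx
      rw [← this, LinearEquiv.symm_apply_apply]
      exact hv
    · intro h
      exact ⟨φ.symm x, h, φ.apply_symm_apply x⟩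
  let T : (Fin (Module.finrank ℝ V) → ℝ) →ₗ[ℝ] (F → ℝ) :=
    LinearMap.pi (fun γ => (per γ.1).comp (φ.symm : (Fin (Module.finrank ℝ V) → ℝ) →ₗ[ℝ] V))
  have hT : ∀ x γ, T x γ = per γ.1 (φ.symm x) := fun x γ => rfl
  have hTc : Continuous T := T.continuous_of_finiteDimensional
  have hTinj : Function.Injective T := by
    rw [injective_iff_map_eq_zero]
    intro x hx
    have h1 : φ.symm x = 0 := by
      apply hF
      intro γ hγ
      have := congrFun hx ⟨γ, hγ⟩
      rw [hT] at this
      exact this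
    have h2 := congrArg φ h1
    rw [LinearEquiv.apply_symm_apply, map_zero] at h2
    exact h2
  have hTL : ∀ x ∈ L', T x ∈ Submodule.span ℤ (Set.range (Pi.basisFun ℝ F)) := by
    intro x hx
    rw [Module.Basis.mem_span_iff_repr_mem]
    intro γ
    obtain ⟨k, hk⟩ := hint _ ((hL' x).1 hx) γ.1
    refine ⟨k, ?_⟩
    rw [Pi.basisFun_repr, hT, hk]
    simp
  have hdisc : DiscreteTopology L' := by
    let f : L' → Submodule.span ℤ (Set.range (Pi.basisFun ℝ F)) := fun x => ⟨T x.1, hTL x.1 x.2⟩
    have hf : Continuous f := Continuous.subtype_mk (hTc.comp continuous_subtype_val) _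
    refine DiscreteTopology.of_continuous_injective hf ?_
    intro x y hxy
    apply Subtype.ext
    apply hTinj
    exact congrArg Subtype.val hxy
  have hZ : IsZLattice ℝ L' := by
    refine ⟨?_⟩
    have h1 : (L' : Set (Fin (Module.finrank ℝ V) → ℝ)) =
        (φ : V →ₗ[ℝ] (Fin (Module.finrank ℝ V) → ℝ)) '' (L : Set V) := by
      ext x
      constructor
      · intro hx
        exact ⟨φ.symm x, (hL' x).1 hx, φ.apply_symm_apply x⟩
      · rintro ⟨v, hv, rfl⟩
        exact ⟨v, hv, rfl⟩
    rw [h1, Submodule.span_image, hspan, Submodule.map_top]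
    exact LinearEquiv.range φ
  have hfree : Module.Free ℤ L' := ZLattice.module_free ℝ L'
  have hfin : Module.Finite ℤ L' := ZLattice.module_finite ℝ L'
  let b : Module.Basis (Fin (Module.finrank ℤ L')) ℤ L' := Module.finBasis ℤ L'
  let B : Module.Basis (Fin (Module.finrank ℤ L')) ℝ (Fin (Module.finrank ℝ V) → ℝ) :=
    b.ofZLatticeBasis ℝ L'
  have hB : Submodule.span ℤ (Set.range B) = L' := b.ofZLatticeBasis_span ℝ L'
  refine ⟨Module.finrank ℤ L', fun i => φ.symm (B i), ?_, ?_, ?_⟩
  · have := B.linearIndependent.map' (φ.symm : (Fin (Module.finrank ℝ V) → ℝ) →ₗ[ℝ] V)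
      (LinearMap.ker_eq_bot.2 φ.symm.injective)
    exact this
  · have h1 : Set.range (fun i => φ.symm (B i)) =
        (φ.symm : (Fin (Module.finrank ℝ V) → ℝ) →ₗ[ℝ] V) '' (Set.range B) := by
      rw [← Set.range_comp]
      rfl
    rw [h1, Submodule.span_image, B.span_eq, Submodule.map_top]
    exact LinearEquiv.range φ.symm
  · intro v
    have h1 : (v ∈ (L : Set V) ∧ v ∈ (⊤ : Submodule ℝ V)) ↔ φ v ∈ L' := by
      rw [hL', LinearEquiv.symm_apply_apply]
      simp
    have h2 : φ v ∈ L' ↔ φ v ∈ Submodule.span ℤ (Set.range B) := by rw [hB]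
    rw [h1, h2, Submodule.mem_span_range_iff_exists_fun]
    constructor
    · rintro ⟨k, hk⟩
      refine ⟨k, ?_⟩
      have h2 := congrArg φ.symm hk
      rw [LinearEquiv.symm_apply_apply, map_sum] at h2
      rw [← h2]
      apply Finset.sum_congr rfl
      intro i _
      rw [map_zsmul, Int.cast_smul_eq_zsmul]
    · rintro ⟨k, hk⟩
      refine ⟨k, ?_⟩
      rw [hk, map_sum]
      apply Finset.sum_congr rfl
      intro i _
      rw [map_smul, LinearEquiv.apply_symm_apply, Int.cast_smul_eq_zsmul]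

/-! ### Real symbols are combinations of integral symbols -/

theorem latc_dec {N : ℕ} (hfin : Finite (PN N)) {w : PN N → ℝ} (hw : Sym N w) :
    ∃ (k : ℕ) (t : Fin k → ℝ) (n : Fin k → PN N → ℤ),
      (∀ j, Sym N (fun x => (n j x : ℝ))) ∧ ∀ x, w x = ∑ j, t j * n j x := by
  classical
  have : Fintype (PN N) := Fintype.ofFinite _
  let W : Submodule ℚ ℝ := Submodule.span ℚ (Set.range w)
  have : FiniteDimensional ℚ W := FiniteDimensional.span_of_finite ℚ (Set.finite_range w)
  have hmem : ∀ x, w x ∈ W := fun x => Submodule.subset_span ⟨x, rfl⟩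
  let τ : Module.Basis (Fin (Module.finrank ℚ W)) ℚ W := Module.finBasis ℚ W
  let q : Fin (Module.finrank ℚ W) → PN N → ℚ := fun j x => τ.repr ⟨w x, hmem x⟩ j
  have hq : ∀ x, w x = ∑ j, (q j x : ℝ) * (τ j : ℝ) := by
    intro x
    have h1 := congrArg (fun u : W => (u : ℝ)) (τ.sum_repr ⟨w x, hmem x⟩)
    simp only [Submodule.coe_sum, Submodule.coe_smul] at h1
    rw [← h1]
    apply Finset.sum_congr rfl
    intro j _
    rw [Rat.smul_def]
  let D : ℕ := ∏ j, ∏ x, (q j x).den
  have hD : D ≠ 0 := by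
    apply Finset.prod_ne_zero_iff.2
    intro j _
    apply Finset.prod_ne_zero_iff.2
    intro x _
    exact (q j x).den_nz
  have hdvd : ∀ j x, (q j x).den ∣ D := by
    intro j x
    exact (Finset.dvd_prod_of_mem (fun y => (q j y).den) (Finset.mem_univ x)).trans
      (Finset.dvd_prod_of_mem (fun i => ∏ y, (q i y).den) (Finset.mem_univ j))
  have hint : ∀ j x, ∃ n : ℤ, (n : ℚ) = (D : ℚ) * q j x := by
    intro j x
    obtain ⟨c, hc⟩ := hdvd j x
    refine ⟨c * (q j x).num, ?_⟩
    rw [hc]
    push_cast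
    have h1 : (q j x).den * q j x = (q j x).num := by
      rw [mul_comm]
      exact Rat.mul_den_eq_num (q j x)
    linear_combination (-(c : ℚ)) * h1
  choose n hn using hint
  have hnR : ∀ j x, (n j x : ℝ) = (D : ℝ) * (q j x : ℝ) := by
    intro j x
    have := congrArg (fun u : ℚ => (u : ℝ)) (hn j x)
    push_cast at this
    exact this
  refine ⟨Module.finrank ℚ W, fun j => (τ j : ℝ) / D, n, ?_, ?_⟩
  · intro j
    have key : ∀ x y z : PN N, w x + w y + w z = 0 → q j x + q j y + q j z = 0 := by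
      intro x y z h
      have h1 : (⟨w x, hmem x⟩ : W) + ⟨w y, hmem y⟩ + ⟨w z, hmem z⟩ = 0 := Subtype.ext h
      have h2 := congrArg (fun u : W => τ.repr u j) h1
      simp only [map_add, map_zero, Finsupp.add_apply, Finsupp.zero_apply] at h2
      exact h2
    have key2 : ∀ x y : PN N, w x + w y = 0 → q j x + q j y = 0 := by
      intro x y h
      have h1 : (⟨w x, hmem x⟩ : W) + ⟨w y, hmem y⟩ = 0 := Subtype.ext h
      have h2 := congrArg (fun u : W => τ.repr u j) h1
      simp only [map_add, map_zero, Finsupp.add_apply, Finsupp.zero_apply] at h2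
      exact h2
    constructor
    · intro x
      have h1 := key2 x _ (hw.two x)
      have h2 : ((q j x : ℚ) : ℝ) + (q j (mv N x ModularGroup.S) : ℝ) = 0 := by exact_mod_cast h1
      show (n j x : ℝ) + (n j (mv N x ModularGroup.S) : ℝ) = 0
      rw [hnR, hnR]
      linear_combination (D : ℝ) * h2
    · intro x
      have h1 := key x _ _ (hw.three x)
      have h2 : ((q j x : ℚ) : ℝ) + (q j (mv N x mR) : ℝ) + (q j (mv N x (mR * mR)) : ℝ) = 0 := by
        exact_mod_cast h1
      show (n j x : ℝ) + (n j (mv N x mR) : ℝ) + (n j (mv N x (mR * mR)) : ℝ) = 0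
      rw [hnR, hnR, hnR]
      linear_combination (D : ℝ) * h2
  · intro x
    rw [hq x]
    apply Finset.sum_congr rfl
    intro j _
    rw [hnR]
    have hD' : (D : ℝ) ≠ 0 := by exact_mod_cast hD
    field_simp

/-! ### The main argument -/

theorem latc_sl (p x q y : ℤ) (h : p * y - x * q = 1) : ∃ g : SL(2, ℤ), g 0 0 = p ∧ g 0 1 = x ∧
    g 1 0 = q ∧ g 1 1 = y := by
  refine ⟨⟨!![p, x; q, y], ?_⟩, ?_, ?_, ?_, ?_⟩
  · rw [Matrix.det_fin_two_of]
    exact h
  · rfl
  · rfl
  · rfl
  · rfl

theorem st_LATC (hES : ST_ES) (hINJ : ST_INJ) (hMVB : ST_MVB) (hCONN : ST_CONN) (hSYB : ST_SYB)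
    (hFCL : ST_FCL) (hFD : ST_FD) (hPNF : ST_PNF) : ST_LATC := by
  intro N S hN hS
  obtain ⟨S', hS', hfd⟩ := hFD N hN
  have hSS : S = S' := by
    ext b
    rw [hS, hS']
  subst hSS
  have : FiniteDimensional ℂ S := hfd
  have : FiniteDimensional ℝ S := FiniteDimensional.complexToReal S
  -- the periods
  let per : (ℤ × ℤ) → S →ₗ[ℝ] ℝ := fun γ =>
    { toFun := fun b => (FC (b : ℕ → ℂ) γ.1 γ.2 - FC (b : ℕ → ℂ) 1 0).re
      map_add' := by
        intro b b'
        have h := hFCL N b b' 0 hN ((hS _).1 b.2) ((hS _).1 b'.2)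
        have h1 : ((b + b' : S) : ℕ → ℂ) = fun n => (b : ℕ → ℂ) n + (b' : ℕ → ℂ) n := rfl
        rw [h1, h.2.2.1, h.2.2.1]
        simp only [Complex.sub_re, Complex.add_re]
        ring
      map_smul' := by
        intro c b
        have h := hFCL N b b (c : ℂ) hN ((hS _).1 b.2) ((hS _).1 b.2)
        have h1 : ((c • b : S) : ℕ → ℂ) = fun n => (c : ℂ) * (b : ℕ → ℂ) n := by
          funext n
          show (c • (b : ℕ → ℂ)) n = _
          rw [Pi.smul_apply, Complex.real_smul]
        rw [h1, h.2.2.2.1, h.2.2.2.1]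
        simp only [Complex.sub_re, Complex.mul_re, Complex.ofReal_re, Complex.ofReal_im, zero_mul,
          sub_zero, smul_eq_mul, RingHom.id_apply]
        ring }
  have hper : ∀ γ (b : S), per γ b = (FC (b : ℕ → ℂ) γ.1 γ.2 - FC (b : ℕ → ℂ) 1 0).re :=
    fun γ b => rfl
  -- the index set
  let Γ : Type := {γ : ℤ × ℤ // ∃ q s : ℤ, G0 N γ.1 q γ.2 s}
  have hsep : ∀ b : S, (∀ γ : Γ, per γ.1 b = 0) → b = 0 := by
    intro b hb
    have h1 := hINJ N (b : ℕ → ℂ) hN ((hS _).1 b.2) (by
      intro p q r s hG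
      exact hb ⟨(p, r), q, s, hG⟩)
    apply Subtype.ext
    funext n
    exact h1 n
  let L : AddSubgroup S :=
    { carrier := {b : S | (b : ℕ → ℂ) ∈ Lc N}
      zero_mem' := by
        refine ⟨(hS _).1 (0 : S).2, ?_⟩
        intro p q r s hG
        refine ⟨0, ?_⟩
        have := (per (p, r)).map_zero
        rw [hper] at this
        rw [Int.cast_zero]
        exact this
      add_mem' := by
        intro b b' hb hb'
        refine ⟨(hS _).1 (b + b').2, ?_⟩
        intro p q r s hG
        obtain ⟨k, hk⟩ := hb.2 p q r s hG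
        obtain ⟨k', hk'⟩ := hb'.2 p q r s hG
        refine ⟨k + k', ?_⟩
        have := (per (p, r)).map_add b b'
        rw [hper, hper, hper] at this
        rw [Int.cast_add, ← hk, ← hk']
        exact this
      neg_mem' := by
        intro b hb
        refine ⟨(hS _).1 (-b).2, ?_⟩
        intro p q r s hG
        obtain ⟨k, hk⟩ := hb.2 p q r s hG
        refine ⟨-k, ?_⟩
        have := (per (p, r)).map_neg b
        rw [hper, hper] at this
        rw [Int.cast_neg, ← hk]
        exact this }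
  have hLmem : ∀ b : S, b ∈ L ↔ (b : ℕ → ℂ) ∈ Lc N := fun b => Iff.rfl
  -- the lattice spans
  have hspan : Submodule.span ℝ (L : Set S) = ⊤ := by
    rw [eq_top_iff]
    rintro b -
    have hbC : Cusp N (b : ℕ → ℂ) := (hS _).1 b.2
    have hpot := hSYB N (b : ℕ → ℂ) hN hbC
    obtain ⟨-, -, hex, hsym, -⟩ := hMVB N hN
    obtain ⟨k, t, n, hn, hw⟩ := latc_dec (hPNF N hN).1 (hsym _ _ hpot)
    -- the integral forms
    have hex2 : ∀ j, ∃ (C : ℤ → ℤ → ℝ) (c : S), Pot N (fun x => (n j x : ℝ)) C ∧ c ∈ L ∧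
        ∀ p q r s : ℤ, G0 N p q r s → per (p, r) c = C p r - C 1 0 := by
      intro j
      obtain ⟨C, hC⟩ := hex _ (hn j)
      obtain ⟨c, hc, hper2⟩ := hES N C hN hC.hom hC.eqv
      refine ⟨C, ⟨c, (hS _).2 hc⟩, hC, ?_, ?_⟩
      · rw [hLmem]
        refine ⟨hc, ?_⟩
        intro p q r s hG
        have h1 := hCONN ℝ (AddSubgroup.zmultiples (1 : ℝ)) C hC.hom (by
          intro p x q y h
          obtain ⟨g, h00, h01, h10, h11⟩ := latc_sl p x q y h
          have h2 := hC.dif g
          rw [h00, h01, h10, h11] at h2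
          rw [← h2, AddSubgroup.mem_zmultiples_iff]
          refine ⟨n j (cls N g), ?_⟩
          simp) p r (by
            by_contra hcon
            push Not at hcon
            have := hG.1
            rw [hcon.1, hcon.2] at this
            simp at this)
        rw [AddSubgroup.mem_zmultiples_iff] at h1
        obtain ⟨m, hm⟩ := h1
        refine ⟨m, ?_⟩
        show (FC c p r - FC c 1 0).re = m
        rw [hper2 p q r s hG, ← hm]
        simp
      · intro p q r s hG
        rw [hper]
        exact hper2 p q r s hG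
    choose C c hC hcL hcper using hex2
    have hsum : b = ∑ j, t j • c j := by
      rw [← sub_eq_zero]
      apply hsep
      rintro ⟨⟨p, r⟩, q, s, hG⟩
      show per (p, r) (b - ∑ j, t j • c j) = 0
      rw [map_sub, map_sum]
      have h1 : ∀ j, per (p, r) (t j • c j) = t j * (C j p r - C j 1 0) := by
        intro j
        rw [map_smul, hcper j p q r s hG, smul_eq_mul]
      rw [Finset.sum_congr rfl (fun j _ => h1 j), hper]
      -- the potentials agree
      let K : ℤ → ℤ → ℝ := fun p q => (FC (b : ℕ → ℂ) p q).re - ∑ j, t j * C j p q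
      have hK0 : Hom0 K := by
        intro m p q hm
        simp only [K]
        have e1 : (FC (b : ℕ → ℂ) (m * p) (m * q)).re = (FC (b : ℕ → ℂ) p q).re :=
          hpot.hom m p q hm
        rw [e1]
        congr 1
        apply Finset.sum_congr rfl
        intro j _
        rw [(hC j).hom m p q hm]
      have h2 := hCONN ℝ ⊥ K hK0 (by
        intro p x q y h
        rw [AddSubgroup.mem_bot]
        obtain ⟨g, h00, h01, h10, h11⟩ := latc_sl p x q y h
        have h3 := hpot.dif g
        rw [h00, h01, h10, h11, hw] at h3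
        have h4 : ∀ j, (n j (cls N g) : ℝ) = C j p q - C j x y := by
          intro j
          have := (hC j).dif g
          rw [h00, h01, h10, h11] at this
          exact this
        rw [Finset.sum_congr rfl (fun j _ => by rw [h4 j, mul_sub]), Finset.sum_sub_distrib] at h3
        simp only [K]
        linarith) p r (by
          by_contra hcon
          push Not at hcon
          have := hG.1
          rw [hcon.1, hcon.2] at this
          simp at this)
      rw [AddSubgroup.mem_bot] at h2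
      simp only [K] at h2
      rw [Finset.sum_congr rfl (fun j _ => mul_sub (t j) _ _), Finset.sum_sub_distrib,
        Complex.sub_re]
      linarith
    rw [hsum]
    apply Submodule.sum_mem
    intro j _
    exact Submodule.smul_mem _ _ (Submodule.subset_span (hcL j))
  obtain ⟨m, e, he⟩ := latc_lattice L hspan (fun γ : Γ => per γ.1) hsep (by
    rintro b hb ⟨⟨p, r⟩, q, s, hG⟩
    exact hb.2 p q r s hG)
  exact ⟨m, e, he⟩

end Pool.Agent.Helper96.MP
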