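import Pool.Agent.Helper59.MP.DIMO
import Pool.Agent.Helper9.MP.Amp

/-!
# MP_bde085_nt: module SYM

A Manin symbol comes from a cusp form, with its Hecke eigenvalues.  This is the common core of the
module DIMO of helper59, whose lemmas are used.
-/

set_option autoImplicit false

namespace Pool.Agent.Helper96.MP

open Complex MeasureTheory Filter Topology

theorem st_SYM (hFAREY : ST_FAREY) (hCONN : ST_CONN) (hES : ST_ES) (hINJ : ST_INJ)
    (hFLIM : ST_FLIM) (hTF : ST_TF) (hTILE : ST_TILE) (hPERM : ST_PERM) (hHECKE : ST_HECKE)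
    (hBDRY : ST_BDRY) (hQDIF : ST_QDIF) : ST_SYM := by
  intro N hN v h2v h3v
  obtain ⟨C, hC0, hCE, hCe⟩ := hFAREY N hN v h2v h3v
  obtain ⟨g, hg, hgC⟩ := hES N C hN hC0 hCE
  have hFg := hFLIM N g hN hg
  refine ⟨g, hg, ?_⟩
  intro l α hl hlN hrow
  -- the difference
  let D : ℤ → ℤ → ℝ := fun x y => C x y - (FC g x y).re
  have hD0 : Hom0 D := by
    intro k p q hk
    simp only [D]
    rw [hC0 k p q hk, hFg.2.1 k p q hk]
  have hDinv : ∀ p q r s : ℤ, G0 N p q r s → ∀ x y : ℤ, (x ≠ 0 ∨ y ≠ 0) →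
      D (p * x + q * y) (r * x + s * y) = D x y := by
    intro p q r s hG x y hxy
    simp only [D]
    rw [hCE p q r s hG x y hxy, hFg.2.2.1 p q r s hG x y hxy, Complex.add_re, hgC p q r s hG]
    ring
  -- Hecke relation for `C`
  have hCH : ∀ x y : ℤ, (x ≠ 0 ∨ y ≠ 0) →
      ∑ t ∈ Tn l, C (t.1 * x + t.2.1 * y) (t.2.2 * y) - α * C x y =
        ∑ t ∈ Tn l, C (t.1 * 1 + t.2.1 * 0) (t.2.2 * 0) - α * C 1 0 := by
    intro x y hxy
    let K : ℤ → ℤ → ℝ := fun x y => ∑ t ∈ Tn l, C (t.1 * x + t.2.1 * y) (t.2.2 * y) - α * C x y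
    have hK0 : Hom0 K := by
      intro k p q hk
      simp only [K]
      rw [hC0 k p q hk]
      congr 1
      apply Finset.sum_congr rfl
      intro t _
      have h9 := hC0 k (t.1 * p + t.2.1 * q) (t.2.2 * q) hk
      refine Eq.trans ?_ h9
      congr 1 <;> ring
    have hKe : ∀ p x q y : ℤ, p * y - x * q = 1 → K p q - K x y ∈ (⊥ : AddSubgroup ℝ) := by
      intro p x q y h
      rw [AddSubgroup.mem_bot]
      have hcop : Nat.Coprime l N := (Nat.Prime.coprime_iff_not_dvd hl).mpr hlN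
      have h1 := hTILE ℝ N l hN hl.one_lt.le hcop C v hC0 hCe p x q y h
      have h2 := hrow q y (dimo_uni N h)
      rw [h1, hCe p x q y h, Finset.sum_sub_distrib] at h2
      simp only [K]
      linarith
    have := hCONN ℝ ⊥ K hK0 hKe x y hxy
    rw [AddSubgroup.mem_bot] at this
    simp only [K] at this
    linarith
  have hT := hHECKE N l g hN hl hlN hg
  have hcop : Nat.Coprime l N := (Nat.Prime.coprime_iff_not_dvd hl).mpr hlN
  -- `g` is an eigenform
  have hgE : ∀ n, Tl l g n = (α : ℂ) * g n := by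
    have hg' := dimo_cusp_lin hT hg (α : ℂ)
    have key := hINJ N _ hN hg' (by
      intro p q r s hG
      have hdet : p * s - q * r = 1 := hG.1
      have hpr : p ≠ 0 ∨ r ≠ 0 := by
        by_contra hcon
        push Not at hcon
        rw [hcon.1, hcon.2] at hdet
        simp at hdet
      have h10 : (1 : ℤ) ≠ 0 ∨ (0 : ℤ) ≠ 0 := Or.inl one_ne_zero
      rw [dimo_FC_lin hQDIF hFLIM hN hT hg _ hpr, dimo_FC_lin hQDIF hFLIM hN hT hg _ h10,
        ← dimo_hecke hFLIM hTF hHECKE hN hl hlN hg hpr,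
        ← dimo_hecke hFLIM hTF hHECKE hN hl hlN hg h10]
      -- invariance of the sums of `D`
      have hDsum : ∑ t ∈ Tn l, D (t.1 * p + t.2.1 * r) (t.2.2 * r)
          = ∑ t ∈ Tn l, D (t.1 * 1 + t.2.1 * 0) (t.2.2 * 0) := by
        obtain ⟨e, he⟩ := hPERM N l hN hl.one_lt.le hcop p q r s hG
        rw [← Finset.sum_coe_sort (Tn l), ← Finset.sum_coe_sort (Tn l)
          (fun t => D (t.1 * 1 + t.2.1 * 0) (t.2.2 * 0))]
        rw [← Equiv.sum_comp e (fun t : {t // t ∈ Tn l} =>
          D (t.1.1 * 1 + t.1.2.1 * 0) (t.1.2.2 * 0))]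
        apply Finset.sum_congr rfl
        intro t _
        obtain ⟨p', q', r', s', hG', h1, h2, h3, h4⟩ := he t
        rw [h1, h3]
        obtain ⟨p1, p2⟩ := dimo_Tn_pos hl.one_lt.le (e t).2
        have h5 := hDinv p' q' r' s' hG' ((e t).1.1 * 1 + (e t).1.2.1 * 0) ((e t).1.2.2 * 0)
          (Or.inl (by
            have : ((e t).1.1 : ℤ) ≠ 0 := by exact_mod_cast p1.ne'
            simpa using this))
        rw [← h5]
        congr 1 <;> ring
      have hDpr : D p r = D 1 0 := by
        have := hDinv p q r s hG 1 0 h10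
        simpa using this
      have e1 := hCH p r hpr
      simp only [D, Finset.sum_sub_distrib] at hDsum hDpr
      simp only [Complex.sub_re, Complex.re_sum, Complex.mul_re, Complex.ofReal_re,
        Complex.ofReal_im, zero_mul, sub_zero]
      linear_combination e1 - hDsum + α * hDpr)
    intro n
    exact sub_eq_zero.mp (key n)
  refine ⟨hgE, ?_⟩
  intro hne p x q y h
  -- `D` is constant
  have hDconst : ∀ x y x' y' : ℤ, (x ≠ 0 ∨ y ≠ 0) → (x' ≠ 0 ∨ y' ≠ 0) → D x y = D x' y' := by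
    refine hBDRY N l hN hl hlN D hD0 hDinv α
      (∑ t ∈ Tn l, C (t.1 * 1 + t.2.1 * 0) (t.2.2 * 0) - α * C 1 0) hne ?_
    intro x y hxy
    have e1 := hCH x y hxy
    have e2 := dimo_hecke hFLIM hTF hHECKE hN hl hlN hg hxy
    have e3 : FC (Tl l g) x y = (α : ℂ) * FC g x y := by
      have h5 := dimo_FC_lin hQDIF hFLIM hN hT hg (α : ℂ) hxy
      have h6 : (fun n => Tl l g n - (α : ℂ) * g n) = fun n => g n - 1 * g n := by
        funext n
        rw [hgE n]
        ring
      rw [h6, dimo_FC_lin hQDIF hFLIM hN hg hg 1 hxy] at h5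
      linear_combination -h5
    rw [e3] at e2
    have e4 := congrArg Complex.re e2
    simp only [Complex.re_sum, Complex.mul_re, Complex.ofReal_re, Complex.ofReal_im, zero_mul,
      sub_zero] at e4
    simp only [D, Finset.sum_sub_distrib]
    linear_combination e1 - e4
  have hne1 : p ≠ 0 ∨ q ≠ 0 := by
    by_contra hcon
    push Not at hcon
    rw [hcon.1, hcon.2] at h
    simp at h
  have hne2 : x ≠ 0 ∨ y ≠ 0 := by
    by_contra hcon
    push Not at hcon
    rw [hcon.1, hcon.2] at h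
    simp at h
  have e3 := hDconst p q x y hne1 hne2
  simp only [D] at e3
  rw [hCe p x q y h, Complex.sub_re]
  linarith

end Pool.Agent.Helper96.MP
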