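import Pool.Agent.Helper9.MP.Lat
import Pool.Agent.Helper59.MP.DIMO

/-!
# MP_bde085_nt: module WLC

The lattice of cusp forms with integral real periods is stable under Atkin-Lehner operators and
Hecke operators.
-/

set_option autoImplicit false

namespace Pool.Agent.Helper96.MP

open Complex MeasureTheory Filter Topology

theorem wlc_ne {p q r s : ℤ} (h : p * s - q * r = 1) : p ≠ 0 ∨ r ≠ 0 := by
  by_contra hcon
  push Not at hcon
  rw [hcon.1, hcon.2] at h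
  simp at h

theorem wlc_al (hWFC : ST_WFC) (hFLIM : ST_FLIM) (hTQM : ST_TQM) {N Q : ℕ} {b c : ℕ → ℂ}
    (hN : 1 ≤ N) (hQ : Q ∈ UD N) (hc : Cusp N c) (hA : AL0 N Q b c) (hb : b ∈ Lc N) :
    c ∈ Lc N := by
  refine ⟨hc, ?_⟩
  intro p q r s hG
  obtain ⟨⟨h1UD, hcx⟩, hex, hadj, hmul, hone⟩ := hTQM N hN
  obtain ⟨A, B, C, D, hM⟩ := hex Q hQ
  have hQ0 : (Q : ℤ) ≠ 0 := by
    have h1 : Q ∈ N.divisors := (Finset.mem_filter.1 hQ).1
    have h2 := Nat.pos_of_mem_divisors h1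
    exact_mod_cast h2.ne'
  have hdet : A * D - B * C = Q := by
    have := hM.1
    rw [one_mul] at this
    exact this
  -- the product
  have hγ : TQ N 1 1 p q r s := (hone p q r s).2 hG
  obtain ⟨A1, B1, C1, D1, hM1, e1, e2, e3, e4⟩ := hmul Q hQ 1 h1UD 1 A B C D 1 p q r s hM hγ
  rw [(hcx Q hQ Q hQ).2.2.2.2] at hM1
  simp only [Nat.gcd_one_right, Nat.cast_one, one_mul, mul_one] at hM1 e1 e2 e3 e4
  obtain ⟨p', q', r', s', hM2, f1, f2, f3, f4⟩ :=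
    hmul Q hQ Q hQ 1 A1 B1 C1 D1 1 D (-B) (-C) A hM1 (hadj Q 1 A B C D hM)
  rw [(hcx Q hQ Q hQ).2.2.1] at hM2
  simp only [Nat.gcd_self, mul_one] at hM2 f1 f2 f3 f4
  have hG' : G0 N p' q' r' s' := (hone _ _ _ _).1 hM2
  have g1 : A * p + B * r = p' * A + q' * C := by
    apply mul_left_cancel₀ hQ0
    linear_combination A * f1 + C * f2 + (Q : ℤ) * e1 - A1 * hdet
  have g2 : C * p + D * r = r' * A + s' * C := by
    apply mul_left_cancel₀ hQ0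
    linear_combination A * f3 + C * f4 + (Q : ℤ) * e3 - C1 * hdet
  have hAC : A ≠ 0 ∨ C ≠ 0 := by
    by_contra hcon
    push Not at hcon
    rw [hcon.1, hcon.2] at hdet
    simp at hdet
    exact hQ0 hdet.symm
  have k1 := hWFC N Q b c hN hQ hb.1 hc hA A B C D hM p r (wlc_ne hG.1)
  have k2 := hWFC N Q b c hN hQ hb.1 hc hA A B C D hM 1 0 (Or.inl one_ne_zero)
  have k3 := (hFLIM N b hN hb.1).2.2.1 p' q' r' s' hG' A C hAC
  obtain ⟨k, hk⟩ := hb.2 p' q' r' s' hG'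
  refine ⟨k, ?_⟩
  rw [k1, k2, g1, g2, k3, ← hk]
  simp only [mul_one, mul_zero, add_zero, Complex.sub_re, Complex.add_re]
  ring

theorem wlc_hecke (hFLIM : ST_FLIM) (hTF : ST_TF) (hPERM : ST_PERM) (hHECKE : ST_HECKE)
    {N l : ℕ} {b : ℕ → ℂ} (hN : 1 ≤ N) (hl : l.Prime) (hlN : ¬ l ∣ N) (hb : b ∈ Lc N) :
    Tl l b ∈ Lc N := by
  refine ⟨hHECKE N l b hN hl hlN hb.1, ?_⟩
  intro p q r s hG
  have hcop : Nat.Coprime l N := (Nat.Prime.coprime_iff_not_dvd hl).mpr hlN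
  obtain ⟨e, he⟩ := hPERM N l hN hl.one_lt.le hcop p q r s hG
  have h10 : (1 : ℤ) ≠ 0 ∨ (0 : ℤ) ≠ 0 := Or.inl one_ne_zero
  rw [← dimo_hecke hFLIM hTF hHECKE hN hl hlN hb.1 (wlc_ne hG.1),
    ← dimo_hecke hFLIM hTF hHECKE hN hl hlN hb.1 h10]
  rw [← Finset.sum_coe_sort (Tn l), ← Finset.sum_coe_sort (Tn l)
    (fun t => FC b (t.1 * 1 + t.2.1 * 0) (t.2.2 * 0))]
  rw [← Equiv.sum_comp e (fun t : {t // t ∈ Tn l} =>
    FC b (t.1.1 * 1 + t.1.2.1 * 0) (t.1.2.2 * 0)), ← Finset.sum_sub_distrib]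
  have key : ∀ t : {t // t ∈ Tn l}, ∃ k : ℤ,
      (FC b (t.1.1 * p + t.1.2.1 * r) (t.1.2.2 * r) -
        FC b ((e t).1.1 * 1 + (e t).1.2.1 * 0) ((e t).1.2.2 * 0)).re = k := by
    intro t
    obtain ⟨p', q', r', s', hG', h1, h2, h3, h4⟩ := he t
    obtain ⟨p1, p2⟩ := dimo_Tn_pos hl.one_lt.le (e t).2
    obtain ⟨k, hk⟩ := hb.2 p' q' r' s' hG'
    refine ⟨k, ?_⟩
    have h5 := (hFLIM N b hN hb.1).2.2.1 p' q' r' s' hG'
      ((e t).1.1 * 1 + (e t).1.2.1 * 0) ((e t).1.2.2 * 0) (Or.inl (by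
        have : ((e t).1.1 : ℤ) ≠ 0 := by exact_mod_cast p1.ne'
        simpa using this))
    have h6 : p' * (((e t).1.1 : ℤ) * 1 + (e t).1.2.1 * 0) + q' * ((e t).1.2.2 * 0)
        = p' * (e t).1.1 := by ring
    have h7 : r' * (((e t).1.1 : ℤ) * 1 + (e t).1.2.1 * 0) + s' * ((e t).1.2.2 * 0)
        = r' * (e t).1.1 := by ring
    rw [h6, h7] at h5
    rw [h1, h3, h5, ← hk]
    simp only [Complex.sub_re, Complex.add_re]
    ring
  choose k hk using key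
  refine ⟨∑ t, k t, ?_⟩
  rw [Complex.re_sum, Int.cast_sum]
  exact Finset.sum_congr rfl (fun t _ => hk t)

theorem st_WLC (hWFC : ST_WFC) (hFLIM : ST_FLIM) (hTF : ST_TF) (hPERM : ST_PERM)
    (hHECKE : ST_HECKE) (hTQM : ST_TQM) : ST_WLC :=
  ⟨fun _ _ _ _ hN hQ hc hA hb => wlc_al hWFC hFLIM hTQM hN hQ hc hA hb,
    fun _ _ _ hN hl hlN hb => wlc_hecke hFLIM hTF hPERM hHECKE hN hl hlN hb⟩

end Pool.Agent.Helper96.MP
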